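import Mathlib
import Pool.Agent.Y704.PC.Stm

/-!
The solid cylinder with a tube along the spiral ray is a locally connected continuum.
-/

set_option autoImplicit false

open Set Topology

namespace Pool.Agent.Y50.PC

open Pool.Agent.Y704.PC Pool.Agent.W621.Spiral

theorem circle_of_mem {x : (ℝ × ℂ) × ℂ} (hx : x ∈ P) : ‖x.2 + x.1.1‖ = x.1.1 := by
  obtain ⟨h0, -, -, h | h⟩ := hx
  · rw [h, zero_add, Complex.norm_real, Real.norm_eq_abs, abs_of_nonneg h0]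
  · exact h.2

theorem isClosed_P : IsClosed P := by
  have c11 : Continuous fun x : (ℝ × ℂ) × ℂ => x.1.1 := continuous_fst.comp continuous_fst
  have c12 : Continuous fun x : (ℝ × ℂ) × ℂ => x.1.2 := continuous_snd.comp continuous_fst
  have h1 : IsClosed {x : (ℝ × ℂ) × ℂ | 0 ≤ x.1.1} := isClosed_le continuous_const c11
  have h2 : IsClosed {x : (ℝ × ℂ) × ℂ | x.1.1 ≤ 1} := isClosed_le c11 continuous_const
  have h3 : IsClosed {x : (ℝ × ℂ) × ℂ | ‖x.1.2‖ ≤ 1} := isClosed_le c12.norm continuous_const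
  have h4 : IsClosed {x : (ℝ × ℂ) × ℂ | x.2 = 0} := isClosed_eq continuous_snd continuous_const
  have h5 : IsClosed {x : (ℝ × ℂ) × ℂ | x.1 ∈ W621.Spiral.D} :=
    isClosed_D.preimage continuous_fst
  have h6 : IsClosed {x : (ℝ × ℂ) × ℂ | ‖x.2 + x.1.1‖ = x.1.1} :=
    isClosed_eq (continuous_snd.add (Complex.continuous_ofReal.comp c11)).norm c11
  exact h1.inter (h2.inter (h3.inter (h4.union (h5.inter h6))))

theorem isCompact_P : IsCompact P := by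
  refine Metric.isCompact_of_isClosed_isBounded isClosed_P ?_
  refine (Metric.isBounded_closedBall (x := (0 : (ℝ × ℂ) × ℂ)) (r := 2)).subset ?_
  intro x hx
  have hc := circle_of_mem hx
  obtain ⟨h0, h1, h2, -⟩ := hx
  rw [mem_closedBall_zero_iff, Prod.norm_def, Prod.norm_def]
  refine max_le (max_le ?_ (h2.trans one_le_two)) ?_
  · rw [Real.norm_eq_abs, abs_of_nonneg h0]
    exact h1.trans one_le_two
  · have e : x.2 = (x.2 + x.1.1) - x.1.1 := by ring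
    rw [e]
    refine (norm_sub_le _ _).trans ?_
    rw [hc, Complex.norm_real, Real.norm_eq_abs, abs_of_nonneg h0]
    linarith

/-- the action of the spiral monoid on `P` -/
theorem act_mem {d : ℝ × ℂ} (hd : d ∈ W621.Spiral.D) {x : (ℝ × ℂ) × ℂ} (hx : x ∈ P) :
    (d * x.1, (d.1 : ℂ) * x.2) ∈ P := by
  obtain ⟨h0, h1, h2, h3⟩ := hx
  refine ⟨mul_nonneg hd.1 h0, mul_le_one₀ hd.2.1 h0 h1, ?_, ?_⟩
  · show ‖d.2 * x.1.2‖ ≤ 1
    rw [norm_mul]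
    exact mul_le_one₀ hd.2.2.1 (norm_nonneg _) h2
  · rcases h3 with h | ⟨h, h'⟩
    · left
      show (d.1 : ℂ) * x.2 = 0
      rw [h, mul_zero]
    · right
      refine ⟨mul_mem_D hd h, ?_⟩
      show ‖(d.1 : ℂ) * x.2 + ((d.1 * x.1.1 : ℝ) : ℂ)‖ = d.1 * x.1.1
      rw [Complex.ofReal_mul, ← mul_add, norm_mul, h', Complex.norm_real, Real.norm_eq_abs,
        abs_of_nonneg hd.1]

theorem zero_mem_P : (0 : (ℝ × ℂ) × ℂ) ∈ P :=
  ⟨le_rfl, zero_le_one, by simp, Or.inl rfl⟩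

theorem isConnected_P : IsConnected P := by
  refine ⟨⟨0, zero_mem_P⟩, ?_⟩
  refine isPreconnected_of_forall (0 : (ℝ × ℂ) × ℂ) fun x hx => ?_
  refine ⟨(fun d : ℝ × ℂ => ((d * x.1, (d.1 : ℂ) * x.2) : (ℝ × ℂ) × ℂ)) '' W621.Spiral.D,
    ?_, ?_, ?_, ?_⟩
  · rintro _ ⟨d, hd, rfl⟩
    exact act_mem hd hx
  · refine ⟨0, zero_mem_D, ?_⟩
    show (((0 : ℝ × ℂ) * x.1, (((0 : ℝ × ℂ).1 : ℝ) : ℂ) * x.2) : (ℝ × ℂ) × ℂ) = 0
    simp
  · refine ⟨1, one_mem_D, ?_⟩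
    show (((1 : ℝ × ℂ) * x.1, (((1 : ℝ × ℂ).1 : ℝ) : ℂ) * x.2) : (ℝ × ℂ) × ℂ) = x
    simp
  · refine isConnected_D.isPreconnected.image _ (Continuous.continuousOn ?_)
    have := Complex.continuous_ofReal
    fun_prop

/-- local connectedness of a subset, in terms of the ambient space -/
theorem lc_subtype {E : Type*} [PseudoMetricSpace E] (A : Set E)
    (h : ∀ x ∈ A, ∀ ε > 0, ∃ V ∈ 𝓝 x, ∀ y ∈ A, y ∈ V → ∃ S : Set E,
      IsPreconnected S ∧ S ⊆ A ∧ x ∈ S ∧ y ∈ S ∧ S ⊆ Metric.ball x ε) :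
    LocallyConnectedSpace ↥A := by
  refine lc_of_joined fun x U hU => ?_
  obtain ⟨ε, hε, hb⟩ := Metric.mem_nhds_iff.1 hU
  obtain ⟨V, hV, h'⟩ := h x.1 x.2 ε hε
  refine ⟨Subtype.val ⁻¹' V, continuous_subtype_val.continuousAt.preimage_mem_nhds hV, ?_⟩
  intro y hy
  obtain ⟨S, hS, hSA, hx, hy', hSb⟩ := h' y.1 y.2 hy
  refine ⟨Subtype.val ⁻¹' S, ?_, hx, hy', ?_⟩
  · rw [← IsInducing.subtypeVal.isPreconnected_image, Subtype.image_preimage_coe,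
      inter_eq_right.2 hSA]
    exact hS
  · intro z hz
    exact hb (hSb hz)

/-- the tube: the point of the unit circle about `-1` given by `v`, over the point of the ray with
first coordinate `s` -/
noncomputable def tube (q : ℝ × ℂ) : (ℝ × ℂ) × ℂ := (ray q.1, (q.1 : ℂ) * q.2)

theorem tube_mem {q : ℝ × ℂ} (h0 : 0 ≤ q.1) (h1 : q.1 ≤ 1) (hv : ‖q.2 + (1 : ℝ)‖ = 1) :
    tube q ∈ P := by
  refine ⟨h0, h1, (ray_mem h0 h1).2.2.1, Or.inr ⟨ray_mem h0 h1, ?_⟩⟩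
  show ‖(q.1 : ℂ) * q.2 + ((q.1 : ℝ) : ℂ)‖ = q.1
  have e : (q.1 : ℂ) * q.2 + ((q.1 : ℝ) : ℂ) = (q.1 : ℂ) * (q.2 + (1 : ℝ)) := by
    push_cast
    ring
  rw [e, norm_mul, hv, mul_one, Complex.norm_real, Real.norm_eq_abs, abs_of_nonneg h0]

theorem continuousAt_tube {q : ℝ × ℂ} (h : q.1 ≠ 0) : ContinuousAt tube q := by
  unfold tube ray
  refine ContinuousAt.prodMk (ContinuousAt.prodMk continuousAt_fst ?_) ?_
  · refine Complex.continuous_exp.continuousAt.comp (ContinuousAt.mul ?_ continuousAt_const)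
    exact Complex.continuous_ofReal.continuousAt.comp
      ((Real.continuousAt_log h).comp continuousAt_fst)
  · exact (Complex.continuous_ofReal.continuousAt.comp continuousAt_fst).mul continuousAt_snd

/-- coordinates on the tube -/
noncomputable def coord (x : (ℝ × ℂ) × ℂ) : ℝ × ℂ := (x.1.1, x.2 / x.1.1)

theorem continuousAt_coord {x : (ℝ × ℂ) × ℂ} (h : x.1.1 ≠ 0) : ContinuousAt coord x := by
  unfold coord
  have h1 : ContinuousAt (fun x : (ℝ × ℂ) × ℂ => x.1.1) x :=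
    (continuous_fst.comp continuous_fst).continuousAt
  refine ContinuousAt.prodMk h1 (ContinuousAt.div₀ continuousAt_snd ?_ (by exact_mod_cast h))
  exact Complex.continuous_ofReal.continuousAt.comp h1

/-- a point of `P` with nonzero last coordinate is on the tube -/
theorem tube_coord {x : (ℝ × ℂ) × ℂ} (hx : x ∈ P) (h : x.2 ≠ 0) :
    0 < x.1.1 ∧ tube (coord x) = x ∧ ‖(coord x).2 + (1 : ℝ)‖ = 1 := by
  obtain ⟨h0, h1, h2, h3⟩ := hx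
  obtain ⟨hD, hc⟩ := h3.resolve_left h
  have hpos : 0 < x.1.1 := by
    rcases h0.eq_or_lt with h' | h'
    · exfalso
      rw [← h'] at hc
      simp at hc
      exact h hc
    · exact h'
  have hne : ((x.1.1 : ℝ) : ℂ) ≠ 0 := by exact_mod_cast hpos.ne'
  refine ⟨hpos, ?_, ?_⟩
  · unfold tube coord ray
    refine Prod.ext (Prod.ext rfl ?_) ?_
    · exact (snd_eq hD hpos).symm
    · show ((x.1.1 : ℝ) : ℂ) * (x.2 / ((x.1.1 : ℝ) : ℂ)) = x.2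
      rw [mul_div_cancel₀ _ hne]
  · show ‖x.2 / ((x.1.1 : ℝ) : ℂ) + ((1 : ℝ) : ℂ)‖ = 1
    have e : x.2 / ((x.1.1 : ℝ) : ℂ) + ((1 : ℝ) : ℂ) = (x.2 + x.1.1) / ((x.1.1 : ℝ) : ℂ) := by
      rw [add_div, div_self hne, Complex.ofReal_one]
    rw [e, norm_div, hc, Complex.norm_real, Real.norm_eq_abs, abs_of_nonneg h0,
      div_self hpos.ne']

/-- points of the solid cylinder -/
theorem case_base (hA : StArc) (x : (ℝ × ℂ) × ℂ) (hx : x ∈ P) (h : x.2 = 0) (ε : ℝ)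
    (hε : 0 < ε) : ∃ V ∈ 𝓝 x, ∀ y ∈ P, y ∈ V → ∃ S : Set ((ℝ × ℂ) × ℂ),
      IsPreconnected S ∧ S ⊆ P ∧ x ∈ S ∧ y ∈ S ∧ S ⊆ Metric.ball x ε := by
  refine ⟨Metric.ball x ε, Metric.ball_mem_nhds _ hε, fun y hy hyx => ?_⟩
  have hyc := circle_of_mem hy
  obtain ⟨a0, a1, a2, -⟩ := hx
  obtain ⟨b0, b1, b2, b3⟩ := hy
  rw [Metric.mem_ball, Prod.dist_eq, max_lt_iff, h, dist_zero_right] at hyx
  obtain ⟨hy1, hy2⟩ := hyx
  have hcyl : Convex ℝ {p : ℝ × ℂ | 0 ≤ p.1 ∧ p.1 ≤ 1 ∧ ‖p.2‖ ≤ 1} := by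
    have e : {p : ℝ × ℂ | 0 ≤ p.1 ∧ p.1 ≤ 1 ∧ ‖p.2‖ ≤ 1} =
        (Icc (0 : ℝ) 1) ×ˢ (Metric.closedBall (0 : ℂ) 1) := by
      ext p
      simp only [mem_ofPred_eq, mem_prod, mem_Icc, mem_closedBall_zero_iff]
      tauto
    rw [e]
    exact (convex_Icc _ _).prod (convex_closedBall _ _)
  have hseg1 : segment ℝ x.1 y.1 ⊆ {p : ℝ × ℂ | 0 ≤ p.1 ∧ p.1 ≤ 1 ∧ ‖p.2‖ ≤ 1} :=
    hcyl.segment_subset ⟨a0, a1, a2⟩ ⟨b0, b1, b2⟩
  have hseg2 : segment ℝ x.1 y.1 ⊆ Metric.ball x.1 ε :=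
    (convex_ball x.1 ε).segment_subset (Metric.mem_ball_self hε) hy1
  refine ⟨(fun p : ℝ × ℂ => ((p, 0) : (ℝ × ℂ) × ℂ)) '' segment ℝ x.1 y.1 ∪
    (fun w : ℂ => ((y.1, w) : (ℝ × ℂ) × ℂ)) '' {w | ‖w + y.1.1‖ = y.1.1 ∧ ‖w - 0‖ ≤ ‖y.2‖},
    ?_, ?_, ?_, ?_, ?_⟩
  · refine IsPreconnected.union (y.1, 0) ⟨y.1, right_mem_segment _ _ _, rfl⟩ ⟨0, ⟨?_, ?_⟩, rfl⟩
      ?_ ?_
    · rw [zero_add, Complex.norm_real, Real.norm_eq_abs, abs_of_nonneg b0]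
    · simp
    · refine (convex_segment _ _).isPreconnected.image _ (Continuous.continuousOn ?_)
      fun_prop
    · refine (hA y.1.1 ‖y.2‖ 0 ?_).image _ (Continuous.continuousOn ?_)
      · rw [zero_add, Complex.norm_real, Real.norm_eq_abs, abs_of_nonneg b0]
      · fun_prop
  · rintro _ (⟨p, hp, rfl⟩ | ⟨w, ⟨hw1, hw2⟩, rfl⟩)
    · obtain ⟨c0, c1, c2⟩ := hseg1 hp
      exact ⟨c0, c1, c2, Or.inl rfl⟩
    · refine ⟨b0, b1, b2, ?_⟩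
      rcases b3 with b | b
      · left
        rw [b, norm_zero, sub_zero] at hw2
        exact norm_le_zero_iff.1 hw2
      · exact Or.inr ⟨b.1, hw1⟩
  · left
    refine ⟨x.1, left_mem_segment _ _ _, ?_⟩
    exact Prod.ext rfl h.symm
  · right
    exact ⟨y.2, ⟨hyc, by rw [sub_zero]⟩, rfl⟩
  · rintro _ (⟨p, hp, rfl⟩ | ⟨w, ⟨hw1, hw2⟩, rfl⟩)
    · rw [Metric.mem_ball, Prod.dist_eq, max_lt_iff, h, dist_self]
      exact ⟨hseg2 hp, hε⟩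
    · rw [Metric.mem_ball, Prod.dist_eq, max_lt_iff, h, dist_eq_norm w 0]
      exact ⟨hy1, hw2.trans_lt hy2⟩

/-- points of the tube -/
theorem case_tube (hA : StArc) (x : (ℝ × ℂ) × ℂ) (hx : x ∈ P) (h : x.2 ≠ 0) (ε : ℝ)
    (hε : 0 < ε) : ∃ V ∈ 𝓝 x, ∀ y ∈ P, y ∈ V → ∃ S : Set ((ℝ × ℂ) × ℂ),
      IsPreconnected S ∧ S ⊆ P ∧ x ∈ S ∧ y ∈ S ∧ S ⊆ Metric.ball x ε := by
  obtain ⟨hr, hxt, hxc⟩ := tube_coord hx h
  have hc1 : ContinuousAt tube (coord x) := continuousAt_tube hr.ne'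
  obtain ⟨η, hη, hη'⟩ := Metric.continuousAt_iff.1 hc1 ε hε
  rw [hxt] at hη'
  have hN1 : coord ⁻¹' Metric.ball (coord x) η ∈ 𝓝 x :=
    (continuousAt_coord hr.ne').preimage_mem_nhds (Metric.ball_mem_nhds _ hη)
  have hN2 : {y : (ℝ × ℂ) × ℂ | y.2 ≠ 0} ∈ 𝓝 x :=
    (isOpen_ne.preimage continuous_snd).mem_nhds h
  refine ⟨_, Filter.inter_mem hN1 hN2, ?_⟩
  rintro y hy ⟨hy1, hy2⟩
  obtain ⟨hs, hyt, hyc⟩ := tube_coord hy hy2
  have hy1' : dist (coord y) (coord x) < η := hy1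
  rw [Prod.dist_eq, max_lt_iff] at hy1'
  obtain ⟨hy3, hy4⟩ := hy1'
  have hxr : x.1.1 ≤ 1 := hx.2.1
  have hyr : y.1.1 ≤ 1 := hy.2.1
  have hpos : ∀ s ∈ uIcc x.1.1 y.1.1, 0 < s ∧ s ≤ 1 := by
    intro s hs'
    rw [uIcc, mem_Icc] at hs'
    exact ⟨lt_of_lt_of_le (lt_min hr hs) hs'.1, hs'.2.trans (max_le hxr hyr)⟩
  refine ⟨tube '' (uIcc x.1.1 y.1.1 ×ˢ {v : ℂ | ‖v + (1 : ℝ)‖ = 1 ∧
    ‖v - (coord x).2‖ ≤ ‖(coord y).2 - (coord x).2‖}), ?_, ?_, ?_, ?_, ?_⟩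
  · refine (isPreconnected_uIcc.prod (hA 1 _ _ hxc)).image _ ?_
    rintro q ⟨hq, -⟩
    exact (continuousAt_tube (hpos _ hq).1.ne').continuousWithinAt
  · rintro _ ⟨q, ⟨hq1, hq2⟩, rfl⟩
    exact tube_mem (hpos _ hq1).1.le (hpos _ hq1).2 hq2.1
  · refine ⟨coord x, ⟨left_mem_uIcc, hxc, ?_⟩, hxt⟩
    rw [sub_self, norm_zero]
    exact norm_nonneg _
  · exact ⟨coord y, ⟨right_mem_uIcc, hyc, le_rfl⟩, hyt⟩
  · rintro _ ⟨q, ⟨hq1, hq2, hq3⟩, rfl⟩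
    rw [Metric.mem_ball]
    refine hη' ?_
    rw [Prod.dist_eq, max_lt_iff]
    refine ⟨lt_of_le_of_lt ?_ hy3, lt_of_le_of_lt ?_ hy4⟩
    · show dist q.1 x.1.1 ≤ dist y.1.1 x.1.1
      rw [Real.dist_eq, Real.dist_eq]
      exact abs_sub_left_of_mem_uIcc hq1
    · rw [dist_eq_norm, dist_eq_norm]
      exact hq3

theorem t_P : StArc → StP := by
  intro hA
  refine ⟨isCompact_P, isConnected_P, lc_subtype P fun x hx ε hε => ?_⟩
  by_cases h : x.2 = 0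
  · exact case_base hA x hx h ε hε
  · exact case_tube hA x hx h ε hε

end Pool.Agent.Y50.PC
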